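import Pool.Agent.Helper10.Fam.Stmts

set_option autoImplicit false

namespace Pool.Agent.Helper10.Fam

open Pool.Agent.Helper10.Lor
open scoped BigOperators

theorem wgt_orb_inv {n : ℕ} {L : AddSubgroup (E n)} {γ : LV n ≃ₗ[ℝ] LV n} (hγ : γ ∈ OL L)
    {w : LV n} (hw : w ∈ Orb L) : γ w ∈ Orb L := by
  obtain ⟨g, hg, rfl⟩ := hw
  exact ⟨γ * g, (OL L).mul_mem hγ hg, rfl⟩

/-- the permutation of the orbit given by an element of the group -/
noncomputable def wgtEquiv {n : ℕ} {L : AddSubgroup (E n)} (γ : LV n ≃ₗ[ℝ] LV n) (hγ : γ ∈ OL L) :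
    Orb L ≃ Orb L where
  toFun w := ⟨γ⁻¹ w.1, wgt_orb_inv ((OL L).inv_mem hγ) w.2⟩
  invFun w := ⟨γ w.1, wgt_orb_inv hγ w.2⟩
  left_inv w := Subtype.ext (γ.apply_symm_apply w.1)
  right_inv w := Subtype.ext (γ.symm_apply_apply w.1)

theorem wgt_tsum_act {n : ℕ} {L : AddSubgroup (E n)} (F : ℝ → ENNReal) {γ : LV n ≃ₗ[ℝ] LV n}
    (hγ : γ ∈ OL L) {p : Pt n} (hp : p ∈ UH n) :
    ∑' w : Orb L, F (uval w.1 (act γ p)) = ∑' w : Orb L, F (uval w.1 p) := by
  rw [← Equiv.tsum_eq (wgtEquiv γ hγ) (fun w : Orb L => F (uval w.1 p))]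
  refine tsum_congr fun w => ?_
  rw [uval_act hγ.1 w.1 hp]
  rfl

theorem wgt_wv_inj (hA : ST_ALPH) (D : Dat) (β : Fin D.n → E D.n) (hD : DOK D) (hβ : IsBase D β)
    {m m' : List ℕ} (hm : m.length = D.n + 2) (hm' : m'.length = D.n + 2)
    (h : wv D β m = wv D β m') : m = m' := by
  have h1 := hA.inj D β hD hβ (fn m) (fn m') h
  apply List.ext_getElem (by rw [hm, hm'])
  intro i hi hi'
  have h2 := h1 i (by omega)
  unfold fn at h2
  have h3 : m.getD i 0 = m'.getD i 0 := by exact_mod_cast h2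
  rw [List.getD_eq_getElem _ _ hi, List.getD_eq_getElem _ _ hi'] at h3
  exact h3

theorem wgt_pp_nonneg (c : ℕ) (u : ℝ) : 0 ≤ pp c u := sq_nonneg _

theorem wgt_pp_zero {c : ℕ} {u : ℝ} (h : (c : ℝ) / 1000 ≤ u) : pp c u = 0 := by
  unfold pp
  rw [max_eq_left (by linarith)]
  norm_num

theorem wgt_sum_ofReal (W : List (List ℕ)) (hW : W.Nodup) (f : List ℕ → ℝ)
    (hf : ∀ m, 0 ≤ f m) :
    ∑ m ∈ W.toFinset, ENNReal.ofReal (f m) = ENNReal.ofReal ((W.map f).sum) := by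
  rw [← ENNReal.ofReal_sum_of_nonneg (fun m _ => hf m), List.sum_toFinset f hW]

/-- the weights; `ST_WGT` with the additional hypothesis `0 < CU.Mn` (without it the statement is
false for `D.c = 0`, `CU.Mn = 0`) -/
theorem st_WGT' (hB : ST_LSTB) (hA : ST_ALPH) (hP : ST_PT) (hR : ST_RED)
    (hO : ST_WORB) (hC : ST_COMP) (hF : ST_PSF) (hL : ST_LOW) (hU : ST_UP)
    (D : Dat) (β : Fin D.n → E D.n) (CL : LowCert) (CU : UpCert) (Ex : List (List ℕ))
    (hβ : IsBase D β) (G : Good D CL CU Ex) (hmn : 0 < CU.Mn) (κ δ : ℝ) (hκ : 0 < κ)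
    (hδ : 0 < δ)
    (hκδ : κ * ((CU.Mn : ℝ) / 1000) ≤ 39478 / 1000 * ((CL.m0 : ℝ) / 1000000)) :
    AWeights (latOf β) (psF D.c) (39478 / 1000 * δ) ((CU.Mn : ℝ) / 1000) (κ * δ) := by
  have hD := G.dok
  obtain ⟨hF1, hF2, hF3⟩ := hF D.c
  have hMn : (0 : ℝ) < (CU.Mn : ℝ) / 1000 := by
    positivity
  have hnd : D.W.Nodup := by
    have h := G.cusps
    unfold cuspsOK at h
    simp only [Bool.and_eq_true] at h
    exact (hB.nodupL D.W).1 h.1.2
  -- the embedding of the list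
  have hlen : ∀ m ∈ D.W, m.length = D.n + 2 := fun m hm => (hO D β hD hβ Ex G.cusps m hm).1
  have horb : ∀ m ∈ D.W, wv D β m ∈ Orb (latOf β) := fun m hm =>
    (hO D β hD hβ Ex G.cusps m hm).2
  let e : {m // m ∈ D.W.toFinset} → Orb (latOf β) := fun m =>
    ⟨wv D β m.1, horb m.1 (List.mem_toFinset.1 m.2)⟩
  have he : Function.Injective e := by
    intro m m' h
    apply Subtype.ext
    exact wgt_wv_inj hA D β hD hβ (hlen _ (List.mem_toFinset.1 m.2))
      (hlen _ (List.mem_toFinset.1 m'.2)) (congrArg Subtype.val h)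
  refine ⟨hF1, hF2, by positivity, hMn, ?_, ?_⟩
  · -- upper bound
    intro p0 hp0
    obtain ⟨γ, hγ, hγp⟩ := hR D β hD hβ p0 hp0
    have hp : act γ p0 ∈ UH D.n := act_mem hγ.1 hp0
    have h1 := wgt_tsum_act (fun u => ENNReal.ofReal (psF D.c (1 / u))) hγ hp0
    rw [← h1]
    set p := act γ p0 with hpdef
    have hpt := hP.isPt D β hD hβ p hp hγp
    have hpos : ∀ m ∈ D.W, 0 < dx m (xc D β p) := by
      intro m hm
      rw [← hP.uval_wv D β m p (hlen m hm)]
      exact uval_pos (horb m hm) hp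
    have h2 : ∑' w : Orb (latOf β), ENNReal.ofReal (psF D.c (1 / uval w.1 p))
        = ∑' m : {m // m ∈ D.W.toFinset},
          ENNReal.ofReal (psF D.c (1 / uval (e m).1 p)) := by
      rw [he.tsum_eq (f := fun w : Orb (latOf β) => ENNReal.ofReal (psF D.c (1 / uval w.1 p)))]
      intro w hw
      have hw' : uval w.1 p < (D.c : ℝ) / 1000 := by
        by_contra hcon
        push Not at hcon
        apply hw
        show ENNReal.ofReal (psF D.c (1 / uval w.1 p)) = 0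
        rw [hF3 _ (uval_pos w.2 hp), wgt_pp_zero hcon]
        exact ENNReal.ofReal_zero
      obtain ⟨m, hm, hwm⟩ := hC D β hD hβ Ex G.cusps p hp hγp w.1 w.2 hw'
      exact ⟨⟨m, List.mem_toFinset.2 hm⟩, Subtype.ext hwm.symm⟩
    have h3 : ∑' m : {m // m ∈ D.W.toFinset},
          ENNReal.ofReal (psF D.c (1 / uval (e m).1 p))
        = ∑' m : {m // m ∈ D.W.toFinset}, ENNReal.ofReal (pp D.c (dx m.1 (xc D β p))) := by
      refine tsum_congr fun m => ?_
      have hm := List.mem_toFinset.1 m.2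
      rw [hF3 _ (uval_pos (e m).2 hp)]
      show ENNReal.ofReal (pp D.c (uval (wv D β m.1) p)) = _
      rw [hP.uval_wv D β m.1 p (hlen _ hm)]
    rw [h2, h3, Finset.tsum_subtype D.W.toFinset
      (fun m => ENNReal.ofReal (pp D.c (dx m (xc D β p)))),
      wgt_sum_ofReal D.W hnd _ (fun m => wgt_pp_nonneg _ _)]
    apply ENNReal.ofReal_le_ofReal
    have hw0 : 0 < dx D.w0 (xc D β p) := by
      rw [← hP.uval_wv D β D.w0 p hD.lenw, hA.wv_w0 D β hD, uval_w0 hp]
      exact one_div_pos.2 hp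
    exact hU D CU hD hnd G.up1 G.up2 G.up3 (xc D β p) hpt hpos hw0
  · -- lower bound
    intro p0 hp0
    obtain ⟨γ, hγ, hγp⟩ := hR D β hD hβ p0 hp0
    have hp : act γ p0 ∈ UH D.n := act_mem hγ.1 hp0
    have h1 := wgt_tsum_act (fun u => ENNReal.ofReal
      (39478 / 1000 * δ * (1 / u) ^ 2 * psF D.c (1 / u))) hγ hp0
    rw [← h1]
    set p := act γ p0 with hpdef
    have hpt := hP.isPt D β hD hβ p hp hγp
    have hpos : ∀ m ∈ D.W, 0 < dx m (xc D β p) := by
      intro m hm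
      rw [← hP.uval_wv D β m p (hlen m hm)]
      exact uval_pos (horb m hm) hp
    have h2 := ENNReal.tsum_comp_le_tsum_of_injective he
      (fun w : Orb (latOf β) => ENNReal.ofReal
        (39478 / 1000 * δ * (1 / uval w.1 p) ^ 2 * psF D.c (1 / uval w.1 p)))
    refine le_trans ?_ h2
    have h3 : ∑' m : {m // m ∈ D.W.toFinset}, ENNReal.ofReal
        (39478 / 1000 * δ * (1 / uval (e m).1 p) ^ 2 * psF D.c (1 / uval (e m).1 p))
        = ∑' m : {m // m ∈ D.W.toFinset}, ENNReal.ofReal (39478 / 1000 * δ *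
          (pp D.c (dx m.1 (xc D β p)) / (dx m.1 (xc D β p)) ^ 2)) := by
      refine tsum_congr fun m => ?_
      have hm := List.mem_toFinset.1 m.2
      rw [hF3 _ (uval_pos (e m).2 hp)]
      show ENNReal.ofReal (39478 / 1000 * δ * (1 / uval (wv D β m.1) p) ^ 2
        * pp D.c (uval (wv D β m.1) p)) = _
      rw [hP.uval_wv D β m.1 p (hlen _ hm)]
      congr 1
      have := (hpos m.1 hm).ne'
      field_simp
    rw [h3, Finset.tsum_subtype D.W.toFinset
      (fun m => ENNReal.ofReal (39478 / 1000 * δ *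
          (pp D.c (dx m (xc D β p)) / (dx m (xc D β p)) ^ 2))),
      wgt_sum_ofReal D.W hnd (fun m => 39478 / 1000 * δ *
          (pp D.c (dx m (xc D β p)) / (dx m (xc D β p)) ^ 2))
        (fun m => mul_nonneg (by positivity) (div_nonneg (wgt_pp_nonneg _ _) (sq_nonneg _)))]
    apply ENNReal.ofReal_le_ofReal
    rw [List.sum_map_mul_left]
    have h4 := hL D CL hD.dpos G.low1 G.low2 G.low3 (xc D β p) hpt hpos
    calc κ * δ * ((CU.Mn : ℝ) / 1000) = δ * (κ * ((CU.Mn : ℝ) / 1000)) := by ring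
      _ ≤ δ * (39478 / 1000 * ((CL.m0 : ℝ) / 1000000)) :=
        mul_le_mul_of_nonneg_left hκδ hδ.le
      _ = 39478 / 1000 * δ * ((CL.m0 : ℝ) / 1000000) := by ring
      _ ≤ _ := mul_le_mul_of_nonneg_left h4 (by positivity)

end Pool.Agent.Helper10.Fam
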